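import Pool.Agent.GLE.StmtsA
import Pool.Agent.GLE.StmtsC

/-! Squad GLE, module ENB: energy of the charge `S - (d / N) Z`. -/

namespace Pool.Agent.GLE.H38

open Polynomial MeasureTheory

theorem log30_le : Real.log 30 ≤ 7 / 2 := by
  have h1 : (2.7182818283 : ℝ) < Real.exp 1 := Real.exp_one_gt_d9
  have h2 : (900 : ℝ) ≤ Real.exp 7 := by
    have h3 : Real.exp 7 = Real.exp 1 ^ 7 := by
      rw [← Real.exp_nat_mul]; norm_num
    rw [h3]
    have h4 : (2.7182818283 : ℝ) ^ 7 ≤ Real.exp 1 ^ 7 :=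
      pow_le_pow_left₀ (by norm_num) h1.le 7
    refine le_trans ?_ h4
    norm_num
  have h5 : Real.log 900 ≤ 7 := by
    rw [Real.log_le_iff_le_exp (by norm_num)]; exact h2
  have h6 : Real.log 900 = 2 * Real.log 30 := by
    rw [show (900 : ℝ) = 30 ^ 2 by norm_num, Real.log_pow]; norm_num
  linarith

/-- lower bound of the self energy of a separated set -/
theorem self_lower (enk : EnkStmt) (S : Finset ℂ) (ε : ℝ) (hε : 0 < ε)
    (hS : 0 ≤ ∑ a ∈ S, ∑ b ∈ S.erase a, Real.log ‖a - b‖) :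
    (S.card : ℝ) * Real.log ε ≤ ∑ a ∈ S, ∑ b ∈ S, Ek ε a b := by
  classical
  have h1 : ∀ a ∈ S, Real.log ε + ∑ b ∈ S.erase a, Real.log ‖a - b‖ ≤ ∑ b ∈ S, Ek ε a b := by
    intro a ha
    rw [← Finset.add_sum_erase S (fun b => Ek ε a b) ha, enk.1 ε a hε]
    refine add_le_add le_rfl (Finset.sum_le_sum fun b hb => ?_)
    exact enk.2.2.1 ε a b hε (Finset.ne_of_mem_erase hb).symm
  calc (S.card : ℝ) * Real.log ε = ∑ _a ∈ S, Real.log ε := by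
        rw [Finset.sum_const, nsmul_eq_mul]
    _ ≤ (∑ _a ∈ S, Real.log ε) + ∑ a ∈ S, ∑ b ∈ S.erase a, Real.log ‖a - b‖ := by linarith
    _ = ∑ a ∈ S, (Real.log ε + ∑ b ∈ S.erase a, Real.log ‖a - b‖) := by
        rw [Finset.sum_add_distrib]
    _ ≤ ∑ a ∈ S, ∑ b ∈ S, Ek ε a b := Finset.sum_le_sum h1

theorem enb (grm : GrmStmt) (enk : EnkStmt) (nbh : NbhStmt) (roo : RooStmt) (sep : SepStmt) :
    EnbStmt := by
  classical
  intro M g hM hgm hgi hgM hgd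
  set ε : ℝ := (1 / 5 : ℝ) ^ M / 2 with hεdef
  have hε : 0 < ε := by positivity
  set S : Finset ℂ := rt g with hS
  set Z : Finset ℂ := rt (av M (X : ℤ[X])) with hZ
  set d : ℕ := g.natDegree with hd
  obtain ⟨hsepg, hd1⟩ := roo.1 g hgm hgi
  obtain ⟨hcS, -, -, -, hlS⟩ := roo.2.1 g hgm hsepg
  obtain ⟨hZm, hZd, hZsep, hZev, -⟩ := sep M hM
  obtain ⟨hcZ, -, -, hZprod, hlZ⟩ := roo.2.1 _ hZm hZsep
  rw [hZd] at hcZ
  rw [← hS] at hcS hlS
  rw [← hZ] at hcZ hlZ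
  -- the real number `q = d / N`
  set q : ℝ := (d : ℝ) / 2 ^ (M - 1) with hq
  have hNpos : (0 : ℝ) < 2 ^ (M - 1) := by positivity
  have hdN : (d : ℝ) ≤ 2 ^ (M - 1) := by exact_mod_cast hgd
  have hd0 : (0 : ℝ) ≤ d := Nat.cast_nonneg d
  have hq0 : 0 ≤ q := by positivity
  have hq1 : q ≤ 1 := by rw [hq, div_le_one hNpos]; exact hdN
  have hqN : q * 2 ^ (M - 1) = d := by rw [hq]; field_simp
  -- the system of charges
  let a : {x // x ∈ S} ⊕ {x // x ∈ Z} → ℂ := Sum.elim (fun x => x.1) (fun x => x.1)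
  let c : {x // x ∈ S} ⊕ {x // x ∈ Z} → ℝ := Sum.elim (fun _ => 1) (fun _ => -q)
  have hc : ∑ i, c i = 0 := by
    rw [Fintype.sum_sum_type]
    simp only [c, Sum.elim_inl, Sum.elim_inr, Finset.sum_const, Finset.card_univ,
      Fintype.card_coe, nsmul_eq_mul, mul_one, hcS, hcZ]
    push_cast
    linarith
  obtain ⟨hmem, hint⟩ := grm _ a c ε hε hc
  have hfun : ∀ z : ℂ, ∑ i, (c i : ℂ) * Vg ε (z - a i) =
      (∑ a ∈ S, Vg ε (z - a)) - ((d : ℂ) / 2 ^ (M - 1)) * ∑ b ∈ Z, Vg ε (z - b) := by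
    intro z
    rw [Fintype.sum_sum_type]
    simp only [a, c, Sum.elim_inl, Sum.elim_inr, Complex.ofReal_one, one_mul,
      Complex.ofReal_neg, neg_mul]
    rw [Finset.sum_coe_sort S (fun x => Vg ε (z - x)), Finset.sum_neg_distrib, ← Finset.mul_sum,
      Finset.sum_coe_sort Z (fun x => Vg ε (z - x)), ← sub_eq_add_neg, hq]
    push_cast
    rfl
  have hEn : ∑ i, ∑ j, c i * c j * Ek ε (a i) (a j) =
      (∑ x ∈ S, ∑ y ∈ S, Ek ε x y) - 2 * q * (∑ x ∈ S, ∑ y ∈ Z, Ek ε x y) +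
        q ^ 2 * ∑ x ∈ Z, ∑ y ∈ Z, Ek ε x y := by
    have hsw : ∑ x ∈ Z, ∑ y ∈ S, Ek ε x y = ∑ x ∈ S, ∑ y ∈ Z, Ek ε x y := by
      rw [Finset.sum_comm]
      exact Finset.sum_congr rfl fun x _ => Finset.sum_congr rfl fun y _ => enk.2.1 ε y x hε
    rw [Fintype.sum_sum_type]
    simp only [Fintype.sum_sum_type, a, c, Sum.elim_inl, Sum.elim_inr, one_mul, mul_one]
    have e1 : ∀ x : ℂ, ∑ y : {y // y ∈ S}, Ek ε x y.1 = ∑ y ∈ S, Ek ε x y :=
      fun x => Finset.sum_coe_sort S (fun y => Ek ε x y)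
    have e2 : ∀ x : ℂ, ∑ y : {y // y ∈ Z}, -q * Ek ε x y.1 = -q * ∑ y ∈ Z, Ek ε x y := by
      intro x
      rw [← Finset.mul_sum, Finset.sum_coe_sort Z (fun y => Ek ε x y)]
    have e3 : ∀ x : ℂ, ∑ y : {y // y ∈ S}, -q * Ek ε x y.1 = -q * ∑ y ∈ S, Ek ε x y := by
      intro x
      rw [← Finset.mul_sum, Finset.sum_coe_sort S (fun y => Ek ε x y)]
    have e4 : ∀ x : ℂ, ∑ y : {y // y ∈ Z}, -q * -q * Ek ε x y.1 = q ^ 2 * ∑ y ∈ Z, Ek ε x y := by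
      intro x
      rw [← Finset.mul_sum, Finset.sum_coe_sort Z (fun y => Ek ε x y)]
      ring
    simp only [e1, e2, e3, e4]
    rw [Finset.sum_coe_sort S (fun x => (∑ y ∈ S, Ek ε x y) + -q * ∑ y ∈ Z, Ek ε x y),
      Finset.sum_coe_sort Z (fun x => (-q * ∑ y ∈ S, Ek ε x y) + q ^ 2 * ∑ y ∈ Z, Ek ε x y),
      Finset.sum_add_distrib, Finset.sum_add_distrib, ← Finset.mul_sum, ← Finset.mul_sum,
      ← Finset.mul_sum, hsw]
    ring
  -- bounds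
  have hlogε : Real.log ε = -((M : ℝ) * Real.log 5 + Real.log 2) := by
    rw [hεdef, Real.log_div (by positivity) (by norm_num), Real.log_pow, one_div, Real.log_inv]
    ring
  have hlog5 : 0 ≤ Real.log 5 := Real.log_nonneg (by norm_num)
  have hlog2 : 0 ≤ Real.log 2 := Real.log_nonneg (by norm_num)
  have hlog3 : 0 ≤ Real.log 3 := Real.log_nonneg (by norm_num)
  have hMr : (1 : ℝ) ≤ M := by exact_mod_cast hM
  have hlogneg : Real.log ε ≤ 0 := by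
    rw [hlogε]; have : 0 ≤ (M : ℝ) * Real.log 5 := by positivity
    linarith
  have hT1 : (d : ℝ) * Real.log ε ≤ ∑ x ∈ S, ∑ y ∈ S, Ek ε x y := by
    have := self_lower enk S ε hε hlS
    rwa [hcS] at this
  have hT3 : (2 : ℝ) ^ (M - 1) * Real.log ε ≤ ∑ x ∈ Z, ∑ y ∈ Z, Ek ε x y := by
    have := self_lower enk Z ε hε hlZ
    rw [hcZ] at this
    push_cast at this
    exact this
  have hT3' : (d : ℝ) * Real.log ε ≤ q ^ 2 * ∑ x ∈ Z, ∑ y ∈ Z, Ek ε x y := by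
    have h1 : q ^ 2 * ((2 : ℝ) ^ (M - 1) * Real.log ε) ≤
        q ^ 2 * ∑ x ∈ Z, ∑ y ∈ Z, Ek ε x y := mul_le_mul_of_nonneg_left hT3 (sq_nonneg q)
    have h2 : q ^ 2 * ((2 : ℝ) ^ (M - 1) * Real.log ε) = q * (d * Real.log ε) := by
      rw [← hqN]; ring
    have h3 : (d : ℝ) * Real.log ε ≤ 0 := mul_nonpos_of_nonneg_of_nonpos hd0 hlogneg
    nlinarith [mul_nonneg (sub_nonneg.mpr hq1) (neg_nonneg.mpr h3)]
  have hT2 : ∑ x ∈ S, ∑ y ∈ Z, Ek ε x y ≤ d * Real.log 3 := by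
    have h1 : ∀ x ∈ S, ∑ y ∈ Z, Ek ε x y ≤ Real.log 3 := by
      intro x hx
      refine enk.2.2.2 ε 3 x Z hε (by norm_num) ?_
      intro w hw
      have hw' : ‖w - x‖ ≤ (1 / 5 : ℝ) ^ M := by
        refine hw.trans (le_of_eq ?_)
        rw [hεdef]; ring
      have h2 := nbh M x (w - x) (hgM x hx) hw'
      rw [add_sub_cancel] at h2
      have h3 : ‖av M x‖ ≤ 2 := hgM x hx M
      have h4 : av M w = ∏ b ∈ Z, (w - b) := by
        rw [← hZev w, hZprod w]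
      rw [← h4]
      calc ‖av M w‖ = ‖(av M w - av M x) + av M x‖ := by rw [sub_add_cancel]
        _ ≤ ‖av M w - av M x‖ + ‖av M x‖ := norm_add_le _ _
        _ ≤ 3 := by linarith
    calc ∑ x ∈ S, ∑ y ∈ Z, Ek ε x y ≤ ∑ _x ∈ S, Real.log 3 := Finset.sum_le_sum h1
      _ = d * Real.log 3 := by rw [Finset.sum_const, nsmul_eq_mul, hcS]
  have hT2' : 2 * q * (∑ x ∈ S, ∑ y ∈ Z, Ek ε x y) ≤ 2 * (d * Real.log 3) := by
    have h1 : 2 * q * (∑ x ∈ S, ∑ y ∈ Z, Ek ε x y) ≤ 2 * q * (d * Real.log 3) :=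
      mul_le_mul_of_nonneg_left hT2 (by positivity)
    have h2 : 0 ≤ (d : ℝ) * Real.log 3 := by positivity
    nlinarith [mul_nonneg (sub_nonneg.mpr hq1) h2]
  have hfun' : (fun z : ℂ => ∑ i, (c i : ℂ) * Vg ε (z - a i)) = fun z : ℂ =>
      (∑ a ∈ S, Vg ε (z - a)) - ((d : ℂ) / 2 ^ (M - 1)) * ∑ b ∈ Z, Vg ε (z - b) := funext hfun
  refine ⟨?_, ?_⟩
  · rw [← hfun']; exact hmem
  · have hint2 : ∫ z : ℂ, ‖(∑ a ∈ S, Vg ε (z - a)) -
        ((d : ℂ) / 2 ^ (M - 1)) * ∑ b ∈ Z, Vg ε (z - b)‖ ^ 2 =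
        ∫ z, ‖∑ i, (c i : ℂ) * Vg ε (z - a i)‖ ^ 2 := by
      refine integral_congr_ae (Filter.Eventually.of_forall fun z => ?_)
      simp only [hfun z]
    rw [hint2, hint, hEn]
    have hlog30 : Real.log 30 = Real.log 5 + Real.log 2 + Real.log 3 := by
      rw [← Real.log_mul (by norm_num) (by norm_num), ← Real.log_mul (by norm_num) (by norm_num)]
      norm_num
    have hsum : -((∑ x ∈ S, ∑ y ∈ S, Ek ε x y) - 2 * q * (∑ x ∈ S, ∑ y ∈ Z, Ek ε x y) +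
        q ^ 2 * ∑ x ∈ Z, ∑ y ∈ Z, Ek ε x y) ≤ 2 * (d * M * Real.log 30) := by
      have h1 : -((∑ x ∈ S, ∑ y ∈ S, Ek ε x y) - 2 * q * (∑ x ∈ S, ∑ y ∈ Z, Ek ε x y) +
          q ^ 2 * ∑ x ∈ Z, ∑ y ∈ Z, Ek ε x y) ≤
          -(d * Real.log ε) + 2 * (d * Real.log 3) - d * Real.log ε := by linarith
      refine h1.trans ?_
      rw [hlogε, hlog30]
      have h2 : 0 ≤ (d : ℝ) * ((M : ℝ) - 1) * (Real.log 2 + Real.log 3) :=
        mul_nonneg (mul_nonneg hd0 (by linarith)) (by linarith)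
      nlinarith [h2]
    have hpi : Real.pi < 3.1416 := Real.pi_lt_d4
    have hpi0 : 0 < Real.pi := Real.pi_pos
    have hdM : 0 ≤ (d : ℝ) * M := by positivity
    calc -(2 * Real.pi) * ((∑ x ∈ S, ∑ y ∈ S, Ek ε x y) -
          2 * q * (∑ x ∈ S, ∑ y ∈ Z, Ek ε x y) + q ^ 2 * ∑ x ∈ Z, ∑ y ∈ Z, Ek ε x y)
        = (2 * Real.pi) * -((∑ x ∈ S, ∑ y ∈ S, Ek ε x y) -
          2 * q * (∑ x ∈ S, ∑ y ∈ Z, Ek ε x y) + q ^ 2 * ∑ x ∈ Z, ∑ y ∈ Z, Ek ε x y) := by ring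
      _ ≤ (2 * Real.pi) * (2 * (d * M * Real.log 30)) :=
          mul_le_mul_of_nonneg_left hsum (by positivity)
      _ = (d * M) * (4 * Real.pi * Real.log 30) := by ring
      _ ≤ (d * M) * 44 := by
          refine mul_le_mul_of_nonneg_left ?_ hdM
          have h3 : Real.log 30 ≤ 7 / 2 := log30_le
          have h4 : 4 * Real.pi * Real.log 30 ≤ 4 * Real.pi * (7 / 2) :=
            mul_le_mul_of_nonneg_left h3 (by positivity)
          refine h4.trans ?_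
          linarith
      _ = 44 * d * M := by ring

end Pool.Agent.GLE.H38
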