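import Pool.Agent.GLE.StmtsC

/-! Squad GLE, module FIN: all families. -/

namespace Pool.Agent.GLE.H38

open Polynomial

theorem gf_of_finset (D : ℕ) (t : Finset ℤ[X])
    (h : ∀ g ∈ t, g.Monic ∧ Irreducible g ∧ g.natDegree ≤ D ∧ ∀ z ∈ rt g, inM z) :
    GF D t.card (fun i => (t.equivFin.symm i : ℤ[X])) := by
  refine ⟨fun i => (h _ (t.equivFin.symm i).2).1, fun i => (h _ (t.equivFin.symm i).2).2.1, ?_,
    fun i => (h _ (t.equivFin.symm i).2).2.2.1, fun i => (h _ (t.equivFin.symm i).2).2.2.2⟩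
  intro i j hij
  exact t.equivFin.symm.injective (Subtype.ext hij)

theorem gf_mono {D D' r : ℕ} {g : Fin r → ℤ[X]} (h : GF D r g) (hD : D ≤ D') : GF D' r g :=
  ⟨h.1, h.2.1, h.2.2.1, fun i => (h.2.2.2.1 i).trans hD, h.2.2.2.2⟩

theorem gf_sub {D r s : ℕ} {g : Fin r → ℤ[X]} (h : GF D r g) (hs : s ≤ r) :
    GF D s (fun i => g (Fin.castLE hs i)) := by
  refine ⟨fun i => h.1 _, fun i => h.2.1 _, ?_, fun i => h.2.2.2.1 _, fun i => h.2.2.2.2 _⟩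
  intro i j hij
  exact Fin.castLE_injective hs (h.2.2.1 hij)

theorem fin_key (num : NumStmt) (ε : ℝ) (hε : 0 < ε) (hε2 : ε ≤ 1 / 2) :
    ∃ C : ℝ, 0 < C ∧ ∀ (D r : ℕ) (g : Fin r → ℤ[X]), 1 ≤ D → GF D r g →
      (r : ℝ) ≤ C * (D : ℝ) ^ (1 + ε) := by
  obtain ⟨C, hC, hnum⟩ := num ε hε
  obtain ⟨n0, hn0⟩ := exists_nat_gt C
  have hbig : ∀ D : ℕ, n0 + 1 ≤ D → C * (D : ℝ) ^ (1 + ε) < (D : ℝ) ^ 3 := by
    intro D hD
    have hD1 : (1 : ℝ) ≤ (D : ℝ) := by exact_mod_cast (by omega : 1 ≤ D)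
    have hD0 : (0 : ℝ) < (D : ℝ) := by linarith
    have hCD : C < (D : ℝ) := by
      have : (n0 : ℝ) ≤ (D : ℝ) := by exact_mod_cast (by omega : n0 ≤ D)
      linarith
    have h1 : (D : ℝ) ^ (1 + ε) ≤ (D : ℝ) ^ (2 : ℝ) :=
      Real.rpow_le_rpow_of_exponent_le hD1 (by linarith)
    have h2 : (D : ℝ) ^ (2 : ℝ) = (D : ℝ) ^ 2 := by
      rw [← Real.rpow_natCast]; norm_num
    have hp : (0 : ℝ) < (D : ℝ) ^ 2 := by positivity
    calc C * (D : ℝ) ^ (1 + ε) ≤ C * (D : ℝ) ^ 2 := by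
          rw [← h2]; exact mul_le_mul_of_nonneg_left h1 hC.le
      _ < (D : ℝ) * (D : ℝ) ^ 2 := by exact mul_lt_mul_of_pos_right hCD hp
      _ = (D : ℝ) ^ 3 := by ring
  have hcast : (1 : ℝ) ≤ ((n0 + 1 : ℕ) : ℝ) := by
    have := Nat.cast_nonneg (α := ℝ) n0
    push_cast; linarith
  have hpow1 : (1 : ℝ) ≤ ((n0 + 1 : ℕ) : ℝ) ^ (1 + ε) := Real.one_le_rpow hcast (by linarith)
  refine ⟨C * ((n0 + 1 : ℕ) : ℝ) ^ (1 + ε), by positivity, ?_⟩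
  intro D r g hD hg
  have hD1 : (1 : ℝ) ≤ (D : ℝ) := by exact_mod_cast hD
  have hDp : (1 : ℝ) ≤ (D : ℝ) ^ (1 + ε) := Real.one_le_rpow hD1 (by linarith)
  have hnn : (0 : ℝ) ≤ C * (D : ℝ) ^ (1 + ε) := by positivity
  rcases le_or_gt (n0 + 1) D with hDn | hDn
  · have hr : r ≤ D ^ 3 := by
      by_contra hr
      push Not at hr
      have hsub := gf_sub hg hr.le
      have h1 := hnum D (D ^ 3) _ hD hsub le_rfl
      have h2 := hbig D hDn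
      push_cast at h1
      linarith
    have h1 := hnum D r g hD hg hr
    calc (r : ℝ) ≤ C * (D : ℝ) ^ (1 + ε) := h1
      _ = C * (D : ℝ) ^ (1 + ε) * 1 := by ring
      _ ≤ C * (D : ℝ) ^ (1 + ε) * ((n0 + 1 : ℕ) : ℝ) ^ (1 + ε) :=
          mul_le_mul_of_nonneg_left hpow1 hnn
      _ = C * ((n0 + 1 : ℕ) : ℝ) ^ (1 + ε) * (D : ℝ) ^ (1 + ε) := by ring
  · have hg0 := gf_mono hg hDn.le
    have hr : r ≤ (n0 + 1) ^ 3 := by
      by_contra hr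
      push Not at hr
      have hsub := gf_sub hg0 hr.le
      have h1 := hnum (n0 + 1) ((n0 + 1) ^ 3) _ (by omega) hsub le_rfl
      have h2 := hbig (n0 + 1) le_rfl
      push_cast at h1 h2
      linarith
    have h1 := hnum (n0 + 1) r g (by omega) hg0 hr
    have hnn' : (0 : ℝ) ≤ C * ((n0 + 1 : ℕ) : ℝ) ^ (1 + ε) := by positivity
    calc (r : ℝ) ≤ C * ((n0 + 1 : ℕ) : ℝ) ^ (1 + ε) := h1
      _ = C * ((n0 + 1 : ℕ) : ℝ) ^ (1 + ε) * 1 := by ring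
      _ ≤ C * ((n0 + 1 : ℕ) : ℝ) ^ (1 + ε) * (D : ℝ) ^ (1 + ε) :=
          mul_le_mul_of_nonneg_left hDp hnn'

theorem fin (num : NumStmt) : FinStmt := by
  intro ε hε
  obtain ⟨C, hC, hkey⟩ := fin_key num (min ε (1 / 2)) (lt_min hε (by norm_num)) (min_le_right _ _)
  refine ⟨C, hC, fun D hD => ?_⟩
  have hD1 : (1 : ℝ) ≤ (D : ℝ) := by exact_mod_cast hD
  have hkey2 : ∀ t : Finset ℤ[X],
      (∀ g ∈ t, g.Monic ∧ Irreducible g ∧ g.natDegree ≤ D ∧ ∀ z ∈ rt g, inM z) →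
      (t.card : ℝ) ≤ C * (D : ℝ) ^ (1 + ε) := by
    intro t ht
    refine (hkey D t.card _ hD (gf_of_finset D t ht)).trans ?_
    refine mul_le_mul_of_nonneg_left ?_ hC.le
    exact Real.rpow_le_rpow_of_exponent_le hD1 (by have := min_le_left ε (1 / 2 : ℝ); linarith)
  have hfin : {g : ℤ[X] | g.Monic ∧ Irreducible g ∧ g.natDegree ≤ D ∧
      ∀ z ∈ rt g, inM z}.Finite := by
    by_contra hinf
    obtain ⟨n, hn⟩ := exists_nat_gt (C * (D : ℝ) ^ (1 + ε))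
    obtain ⟨t, hts, htn⟩ := Set.Infinite.exists_subset_card_eq hinf n
    have h1 := hkey2 t (fun g hg => hts hg)
    rw [htn] at h1
    linarith
  refine ⟨hfin, ?_⟩
  rw [Set.ncard_eq_toFinset_card _ hfin]
  exact hkey2 _ (fun g hg => hfin.mem_toFinset.mp hg)

end Pool.Agent.GLE.H38
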